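import Pool.Agent.Helper91.IP.Defs

/-!
# Project IP, piece E1: the generator matrix
-/

namespace Pool.Agent.Helper62.IP

open Finset Equiv Matrix Pool.Agent.Helper91.IP

variable {V : Type} [Fintype V] [DecidableEq V]

private theorem E1_Lm_mulVec (g : Perm V) (f : Perm V → ℝ) (s : Perm V) :
    (Lm g *ᵥ f) s = f (g * s) := by
  simp only [Lm, mulVec, dotProduct, ite_mul, one_mul, zero_mul]
  rw [Finset.sum_ite_eq' univ (g * s) f]
  simp

private theorem E1_Am_mulVec (w : V → V → ℝ) (f : Perm V → ℝ) (s : Perm V) :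
    (Am w *ᵥ f) s = (1 / 2) * ∑ x, ∑ y, w x y * (f s - f (swap x y * s)) := by
  simp only [Am, smul_mulVec, sum_mulVec, Pi.smul_apply, Finset.sum_apply, smul_eq_mul,
    sub_mulVec, one_mulVec, Pi.sub_apply, E1_Lm_mulVec]

private theorem E1_Lm_transpose (x y : V) : (Lm (swap x y))ᵀ = Lm (swap x y) := by
  ext s s'
  simp only [transpose_apply, Lm]
  refine if_congr ?_ rfl rfl
  constructor
  · intro h
    rw [h, ← mul_assoc, Equiv.swap_mul_self, one_mul]
  · intro h
    rw [h, ← mul_assoc, Equiv.swap_mul_self, one_mul]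

/-- IP-E1 -/
theorem Am_isSymm (w : V → V → ℝ) : (Am w).IsSymm := by
  unfold IsSymm Am
  simp only [transpose_smul, transpose_sum, transpose_sub, transpose_one, E1_Lm_transpose]

/-- IP-E1 -/
theorem Am_quad (w : V → V → ℝ) (f : Perm V → ℝ) : f ⬝ᵥ (Am w *ᵥ f) = En w f := by
  have h1 : ∀ x y : V, dif f x y = 2 * ∑ s, (f s * (f s - f (swap x y * s))) := by
    intro x y
    have h2 : ∑ s, f (swap x y * s) ^ 2 = ∑ s, f s ^ 2 :=
      Equiv.sum_comp (Equiv.mulLeft (swap x y)) (fun s => f s ^ 2)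
    have h3 : dif f x y = ∑ s, f s ^ 2 + ∑ s, f (swap x y * s) ^ 2
        - 2 * ∑ s, f s * f (swap x y * s) := by
      unfold dif
      rw [mul_sum, ← sum_add_distrib, ← sum_sub_distrib]
      refine sum_congr rfl fun s _ => by ring
    have h4 : ∑ s, (f s * (f s - f (swap x y * s))) = ∑ s, f s ^ 2
        - ∑ s, f s * f (swap x y * s) := by
      rw [← sum_sub_distrib]
      refine sum_congr rfl fun s _ => by ring
    rw [h3, h4, h2]; ring
  have h5 : f ⬝ᵥ (Am w *ᵥ f) =
      ∑ s, f s * ((1 / 2) * ∑ x, ∑ y, w x y * (f s - f (swap x y * s))) := by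
    simp only [dotProduct, E1_Am_mulVec]
  rw [h5]
  unfold En
  have h6 : ∀ x y : V, w x y * dif f x y =
      2 * ∑ s, w x y * (f s * (f s - f (swap x y * s))) := by
    intro x y
    rw [h1, ← mul_sum]; ring
  simp only [h6]
  simp only [mul_sum]
  rw [Finset.sum_comm]
  refine sum_congr rfl fun x _ => ?_
  rw [Finset.sum_comm]
  refine sum_congr rfl fun y _ => ?_
  refine sum_congr rfl fun s _ => by ring

private theorem E1_Lm_comm_Rm (g h : Perm V) : Lm g * Rm h = Rm h * Lm g := by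
  ext s s'
  simp only [mul_apply, Lm, Rm, ite_mul, one_mul, zero_mul]
  rw [Finset.sum_ite_eq' univ (g * s), Finset.sum_ite_eq' univ (s * h)]
  simp only [mem_univ, if_true, mul_assoc]

/-- IP-E1 -/
theorem Am_comm_Rm (w : V → V → ℝ) (g : Perm V) : Am w * Rm g = Rm g * Am w := by
  unfold Am
  simp only [Matrix.smul_mul, Matrix.mul_smul, Finset.sum_mul, Finset.mul_sum, sub_mul, mul_sub,
    one_mul, mul_one, E1_Lm_comm_Rm]

/-- IP-E1 -/
theorem Am_Fs (w : V → V → ℝ) (S : Finset V) {f : Perm V → ℝ} (hf : f ∈ Fs S) :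
    Am w *ᵥ f ∈ Fs S := by
  intro s s' hs
  rw [E1_Am_mulVec, E1_Am_mulVec]
  congr 1
  refine sum_congr rfl fun x _ => sum_congr rfl fun y _ => ?_
  rw [hf s s' hs, hf (swap x y * s) (swap x y * s') fun i hi => by
    rw [Perm.mul_apply, Perm.mul_apply, hs i hi]]

/-- IP-E1 -/
theorem Am_Vl (w : V → V → ℝ) (j : ℕ) {f : Perm V → ℝ} (hf : f ∈ Vl V j) :
    Am w *ᵥ f ∈ Vl V j := by
  have h1 : Vl V j ≤ (Vl V j).comap (Am w).mulVecLin := by
    unfold Vl
    refine iSup_le fun S => ?_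
    intro u hu
    rw [Submodule.mem_comap, mulVecLin_apply]
    exact Submodule.mem_iSup_of_mem S (Am_Fs w S hu)
  exact h1 hf

end Pool.Agent.Helper62.IP
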